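import Mathlib
import Pool.Agent.N131.SU.Ext
import Pool.Agent.V1153.UG.Def

/-!
Specialization of families of punctured lines, and transport to sequences.
-/

set_option autoImplicit false

namespace Pool.Agent.U178.WF

open Set Filter MvPolynomial
open Pool.Agent.N131.SU

variable {N : ℕ} {σ : ℂ ≃+* CS}

/-- the coefficients of the representatives -/
theorem coeff_sq (G : MvPolynomial (Fin (N + 1)) ℂ) (β : Fin (N + 1) →₀ ℕ) :
    σ (coeff β G) = gc fun k => coeff β (sq σ G k) := by
  classical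
  by_cases hβ : β ∈ G.support
  · rw [rp_spec]
    congr 1
    funext k
    unfold N131.SU.sq
    rw [coeff_sum, Finset.sum_eq_single β]
    · rw [coeff_monomial, if_pos rfl]
    · intro γ _ hγ
      rw [coeff_monomial, if_neg hγ]
    · intro h1
      exact absurd hβ h1
  · rw [notMem_support_iff.1 hβ, map_zero]
    have h1 : (fun k => coeff β (sq σ G k)) = 0 := by
      funext k
      unfold N131.SU.sq
      rw [coeff_sum]
      apply Finset.sum_eq_zero
      intro γ hγ
      rw [coeff_monomial, if_neg]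
      intro h2
      exact hβ (h2 ▸ hγ)
    rw [h1, map_zero]

theorem sq_supp (G : MvPolynomial (Fin (N + 1)) ℂ) (k : ℕ) : (sq σ G k).support ⊆ G.support := by
  classical
  intro β hβ
  by_contra h1
  rw [MvPolynomial.mem_support_iff] at hβ
  apply hβ
  unfold N131.SU.sq
  rw [coeff_sum]
  apply Finset.sum_eq_zero
  intro γ hγ
  rw [coeff_monomial, if_neg]
  intro h2
  exact h1 (h2 ▸ hγ)

/-- **Specialization of families to the complex numbers.** -/
theorem spec_fam {M : Type} [Field M] [Algebra ℂ M] {P : Fin (N + 1) → Polynomial M}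
    {Q : MvPolynomial (Fin (N + 1)) ℂ} {c : M} {k : ℕ} (hc : c ≠ 0)
    (hQ : aeval P Q = Polynomial.C c * Polynomial.X ^ k)
    {j1 j2 : Fin (N + 1)} (hW : Polynomial.derivative (P j1) * P j2 ≠
      P j1 * Polynomial.derivative (P j2)) :
    ∃ p : Fin (N + 1) → Polynomial ℂ,
      (∀ G : MvPolynomial (Fin (N + 1)) ℂ, aeval P G = 0 → aeval p G = 0) ∧
      (∃ c' : ℂ, c' ≠ 0 ∧ aeval p Q = Polynomial.C c' * Polynomial.X ^ k) ∧
      Polynomial.derivative (p j1) * p j2 - p j1 * Polynomial.derivative (p j2) ≠ 0 := by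
  classical
  obtain ⟨D, hD⟩ : ∃ D, ∀ j, (P j).natDegree ≤ D := ⟨∑ j, (P j).natDegree, fun j =>
    Finset.single_le_sum (f := fun j => (P j).natDegree) (fun _ _ => Nat.zero_le _)
      (Finset.mem_univ j)⟩
  let V : Type := Fin (N + 1) × Fin (D + 1)
  let ρ : MvPolynomial V ℂ →ₐ[ℂ] M := aeval fun i => (P i.1).coeff i.2
  have hρP : (fun j => Polynomial.mapAlgHom ρ (Pu ℂ N D j)) = P := by
    funext j
    exact map_Pu D ρ.toRingHom hD (fun j i => by
      change ρ (X (j, i)) = _
      simp [ρ]) j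
  have hρG : ∀ G : MvPolynomial (Fin (N + 1)) ℂ,
      Polynomial.mapAlgHom ρ (aeval (Pu ℂ N D) G) = aeval P G := by
    intro G
    rw [MvPolynomial.comp_aeval_apply, hρP]
  let I : Ideal (MvPolynomial V ℂ) := RingHom.ker ρ
  have hI : I.IsPrime := RingHom.ker_isPrime ρ
  set W : Polynomial (MvPolynomial V ℂ) := Polynomial.derivative (Pu ℂ N D j1) * Pu ℂ N D j2 -
    Pu ℂ N D j1 * Polynomial.derivative (Pu ℂ N D j2) with hWd
  have hWρ : Polynomial.map ρ.toRingHom W ≠ 0 := by
    intro h0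
    apply hW
    rw [hWd, Polynomial.map_sub, Polynomial.map_mul, Polynomial.map_mul,
      ← Polynomial.derivative_map, ← Polynomial.derivative_map, sub_eq_zero] at h0
    have h2 := congrFun hρP j1
    have h3 := congrFun hρP j2
    change Polynomial.map ρ.toRingHom (Pu ℂ N D j1) = P j1 at h2
    change Polynomial.map ρ.toRingHom (Pu ℂ N D j2) = P j2 at h3
    rw [h2, h3] at h0
    exact h0
  obtain ⟨s, hs⟩ : ∃ s, ρ (W.coeff s) ≠ 0 := by
    by_contra hcon
    push Not at hcon
    apply hWρ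
    ext s
    rw [Polynomial.coeff_map, Polynomial.coeff_zero]
    exact hcon s
  have hQk : ρ ((aeval (Pu ℂ N D) Q : Polynomial (MvPolynomial V ℂ)).coeff k) = c := by
    have h1 : (Polynomial.mapAlgHom ρ (aeval (Pu ℂ N D) Q)).coeff k =
        (Polynomial.C c * Polynomial.X ^ k).coeff k := by rw [hρG, hQ]
    have h2 : (Polynomial.mapAlgHom ρ (aeval (Pu ℂ N D) Q)).coeff k =
        ρ ((aeval (Pu ℂ N D) Q : Polynomial (MvPolynomial V ℂ)).coeff k) :=
      Polynomial.coeff_map _ _
    rw [h2, Polynomial.coeff_C_mul, Polynomial.coeff_X_pow, if_pos rfl, mul_one] at h1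
    exact h1
  obtain ⟨v, hv, hv1, hv2⟩ : ∃ v : V → ℂ, (∀ h, ρ h = 0 → eval v h = 0) ∧
      eval v ((aeval (Pu ℂ N D) Q : Polynomial (MvPolynomial V ℂ)).coeff k) ≠ 0 ∧
      eval v (W.coeff s) ≠ 0 := by
    by_contra hcon
    push Not at hcon
    have h2 : ((aeval (Pu ℂ N D) Q : Polynomial (MvPolynomial V ℂ)).coeff k) * W.coeff s ∈
        vanishingIdeal ℂ (zeroLocus ℂ I) := by
      rw [mem_vanishingIdeal_iff]
      intro x hx
      rw [aeval_eq_eval]
      change eval x _ = 0
      rw [map_mul, mul_eq_zero]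
      by_contra h3
      push Not at h3
      refine h3.2 (hcon x (fun h hh => ?_) h3.1)
      have h4 := hx h hh
      rwa [aeval_eq_eval] at h4
    rw [IsPrime.vanishingIdeal_zeroLocus] at h2
    have h3 : ρ (((aeval (Pu ℂ N D) Q : Polynomial (MvPolynomial V ℂ)).coeff k) *
      W.coeff s) = 0 := h2
    rw [map_mul, hQk, mul_eq_zero] at h3
    exact h3.elim hc hs
  let φ : MvPolynomial V ℂ →ₐ[ℂ] ℂ := aeval v
  have hφ : ∀ h, φ h = eval v h := fun h => by
    rw [← aeval_eq_eval]
  have hφG : ∀ G : MvPolynomial (Fin (N + 1)) ℂ,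
      aeval (fun j => Polynomial.mapAlgHom φ (Pu ℂ N D j)) G =
        Polynomial.mapAlgHom φ (aeval (Pu ℂ N D) G) := fun G =>
    (MvPolynomial.comp_aeval_apply (f := Pu ℂ N D) (Polynomial.mapAlgHom φ) G).symm
  have hcz : ∀ G : Polynomial (MvPolynomial V ℂ), ∀ s, ρ (G.coeff s) = 0 →
      (Polynomial.mapAlgHom φ G).coeff s = 0 := by
    intro G s h
    have h2 : (Polynomial.mapAlgHom φ G).coeff s = φ (G.coeff s) := Polynomial.coeff_map _ _
    rw [h2, hφ]
    exact hv _ h
  refine ⟨fun j => Polynomial.mapAlgHom φ (Pu ℂ N D j), fun G hG => ?_,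
    ⟨eval v ((aeval (Pu ℂ N D) Q : Polynomial (MvPolynomial V ℂ)).coeff k), hv1, ?_⟩, ?_⟩
  · rw [hφG]
    ext s
    rw [Polynomial.coeff_zero]
    apply hcz
    have h2 : (Polynomial.mapAlgHom ρ (aeval (Pu ℂ N D) G)).coeff s =
        ρ ((aeval (Pu ℂ N D) G : Polynomial (MvPolynomial V ℂ)).coeff s) :=
      Polynomial.coeff_map _ _
    rw [← h2, hρG, hG, Polynomial.coeff_zero]
  · rw [hφG]
    ext s
    rw [Polynomial.coeff_C_mul, Polynomial.coeff_X_pow]
    by_cases hs' : s = k
    · rw [if_pos hs', mul_one, hs']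
      have h2 : (Polynomial.mapAlgHom φ (aeval (Pu ℂ N D) Q)).coeff k =
        φ ((aeval (Pu ℂ N D) Q : Polynomial (MvPolynomial V ℂ)).coeff k) :=
        Polynomial.coeff_map _ _
      rw [h2, hφ]
    · rw [if_neg hs', mul_zero]
      apply hcz
      have h2 : (Polynomial.mapAlgHom ρ (aeval (Pu ℂ N D) Q)).coeff s =
          ρ ((aeval (Pu ℂ N D) Q : Polynomial (MvPolynomial V ℂ)).coeff s) :=
        Polynomial.coeff_map _ _
      rw [← h2, hρG, hQ, Polynomial.coeff_C_mul, Polynomial.coeff_X_pow, if_neg hs', mul_zero]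
  · intro h0
    apply hv2
    have h1 : Polynomial.map φ.toRingHom W = 0 := by
      rw [hWd, Polynomial.map_sub, Polynomial.map_mul, Polynomial.map_mul,
        ← Polynomial.derivative_map, ← Polynomial.derivative_map]
      exact h0
    have h2 := congrArg (fun q => Polynomial.coeff q s) h1
    simp only [Polynomial.coeff_map, Polynomial.coeff_zero] at h2
    rw [← hφ]
    exact h2

/-- the representatives of a vector of polynomials -/
noncomputable def psq (σ : ℂ ≃+* CS) (D : ℕ) (p : Fin (N + 1) → Polynomial ℂ) (k : ℕ)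
    (j : Fin (N + 1)) : Polynomial ℂ :=
  (Pu ℚ N D j).map (aeval fun i : Fin (N + 1) × Fin (D + 1) =>
    rp σ ((p i.1).coeff i.2) k : MvPolynomial (Fin (N + 1) × Fin (D + 1)) ℚ →ₐ[ℚ] ℂ).toRingHom

theorem psq_deg (σ : ℂ ≃+* CS) (D : ℕ) (p : Fin (N + 1) → Polynomial ℂ) (k : ℕ)
    (j : Fin (N + 1)) : (psq σ D p k j).natDegree ≤ D := by
  refine (Polynomial.natDegree_map_le).trans ?_
  unfold Pu
  apply Polynomial.natDegree_sum_le_of_forall_le
  intro i _
  refine (Polynomial.natDegree_C_mul_X_pow_le _ _).trans ?_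
  have := i.2
  omega

/-- the transport of the values of rational polynomials -/
theorem gc_aeval {V : Type} (v : V → ℂ) (H : MvPolynomial V ℚ) :
    σ (aeval v H) = gc fun k => aeval (fun i => rp σ (v i) k) H := by
  have h1 : (σ.toRingHom.comp (aeval v : MvPolynomial V ℚ →ₐ[ℚ] ℂ).toRingHom) =
      gc.comp (RingHom.pi fun k =>
        (aeval (fun i => rp σ (v i) k) : MvPolynomial V ℚ →ₐ[ℚ] ℂ).toRingHom) := by
    apply MvPolynomial.ringHom_ext'
    · exact RingHom.ext_rat _ _
    · intro i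
      change σ (aeval v (X i)) = gc fun k => aeval (fun i => rp σ (v i) k) (X i)
      simp only [aeval_X]
      exact rp_spec _
  exact RingHom.congr_fun h1 H

/-- **Transport of forms along curves.** -/
theorem gc_coeff {D : ℕ} {p : Fin (N + 1) → Polynomial ℂ} (hD : ∀ j, (p j).natDegree ≤ D)
    (G : MvPolynomial (Fin (N + 1)) ℂ) (s : ℕ) :
    σ ((aeval p G).coeff s) = gc fun k => (aeval (psq σ D p k) (sq σ G k)).coeff s := by
  classical
  let v : Fin (N + 1) × Fin (D + 1) → ℂ := fun i => (p i.1).coeff i.2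
  let ψ : MvPolynomial (Fin (N + 1) × Fin (D + 1)) ℚ →ₐ[ℚ] ℂ := aeval v
  have hp : p = fun j => (Pu ℚ N D j).map ψ.toRingHom := by
    funext j
    exact (map_Pu D ψ.toRingHom hD (fun j i => by
      change ψ (X (j, i)) = _
      simp [ψ, v]) j).symm
  have h1 : (aeval p G).coeff s = ∑ β ∈ G.support, coeff β G *
      ψ ((∏ j, Pu ℚ N D j ^ β j).coeff s) := by
    conv_lhs => rw [hp]
    exact coeff_fam ψ.toRingHom (Pu ℚ N D) G s
  have h2 : ∀ k, (aeval (psq σ D p k) (sq σ G k)).coeff s =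
      ∑ β ∈ G.support, coeff β (sq σ G k) *
        aeval (fun i => rp σ (v i) k) ((∏ j, Pu ℚ N D j ^ β j).coeff s) := by
    intro k
    have h3 := coeff_fam (aeval (fun i => rp σ (v i) k) :
      MvPolynomial (Fin (N + 1) × Fin (D + 1)) ℚ →ₐ[ℚ] ℂ).toRingHom (Pu ℚ N D) (sq σ G k) s
    have h4 : (fun j => (Pu ℚ N D j).map (aeval (fun i => rp σ (v i) k) :
      MvPolynomial (Fin (N + 1) × Fin (D + 1)) ℚ →ₐ[ℚ] ℂ).toRingHom) = psq σ D p k := rfl
    rw [h4] at h3
    rw [h3]
    apply Finset.sum_subset (sq_supp G k)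
    intro β _ hβ
    rw [MvPolynomial.notMem_support_iff.1 hβ, map_zero, zero_mul]
  rw [h1, map_sum]
  have h5 : (fun k => (aeval (psq σ D p k) (sq σ G k)).coeff s) =
      ∑ β ∈ G.support, (fun k => coeff β (sq σ G k)) *
        fun k => aeval (fun i => rp σ (v i) k) ((∏ j, Pu ℚ N D j ^ β j).coeff s) := by
    funext k
    rw [h2, Finset.sum_apply]
    rfl
  rw [h5, map_sum]
  apply Finset.sum_congr rfl
  intro β _
  rw [map_mul, map_mul, coeff_sq]
  congr 1
  exact gc_aeval v _

/-- **Transport of Wronskians.** -/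
theorem gc_wr {D : ℕ} {p : Fin (N + 1) → Polynomial ℂ} (hD : ∀ j, (p j).natDegree ≤ D)
    (j1 j2 : Fin (N + 1)) (s : ℕ) :
    σ ((Polynomial.derivative (p j1) * p j2 - p j1 * Polynomial.derivative (p j2)).coeff s) =
      gc fun k => (Polynomial.derivative (psq σ D p k j1) * psq σ D p k j2 -
        psq σ D p k j1 * Polynomial.derivative (psq σ D p k j2)).coeff s := by
  classical
  let v : Fin (N + 1) × Fin (D + 1) → ℂ := fun i => (p i.1).coeff i.2
  let ψ : MvPolynomial (Fin (N + 1) × Fin (D + 1)) ℚ →ₐ[ℚ] ℂ := aeval v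
  have hp : ∀ j, p j = (Pu ℚ N D j).map ψ.toRingHom := fun j =>
    (map_Pu D ψ.toRingHom hD (fun j i => by
      change ψ (X (j, i)) = _
      simp [ψ, v]) j).symm
  set W : Polynomial (MvPolynomial (Fin (N + 1) × Fin (D + 1)) ℚ) :=
    Polynomial.derivative (Pu ℚ N D j1) * Pu ℚ N D j2 -
    Pu ℚ N D j1 * Polynomial.derivative (Pu ℚ N D j2) with hWd
  have h1 : Polynomial.derivative (p j1) * p j2 - p j1 * Polynomial.derivative (p j2) =
      W.map ψ.toRingHom := by
    rw [hWd, Polynomial.map_sub, Polynomial.map_mul, Polynomial.map_mul,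
      ← Polynomial.derivative_map, ← Polynomial.derivative_map, ← hp, ← hp]
  have h2 : ∀ k, Polynomial.derivative (psq σ D p k j1) * psq σ D p k j2 -
      psq σ D p k j1 * Polynomial.derivative (psq σ D p k j2) =
      W.map (aeval fun i => rp σ (v i) k :
        MvPolynomial (Fin (N + 1) × Fin (D + 1)) ℚ →ₐ[ℚ] ℂ).toRingHom := by
    intro k
    rw [hWd, Polynomial.map_sub, Polynomial.map_mul, Polynomial.map_mul,
      ← Polynomial.derivative_map, ← Polynomial.derivative_map]
    rfl
  rw [h1, Polynomial.coeff_map]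
  simp only [h2, Polynomial.coeff_map]
  exact gc_aeval v _

/-- degrees of forms along curves -/
theorem natDegree_fam {D m : ℕ} {p : Fin (N + 1) → Polynomial ℂ} (hD : ∀ j, (p j).natDegree ≤ D)
    {G : MvPolynomial (Fin (N + 1)) ℂ} (hG : G.IsHomogeneous m) :
    (aeval p G).natDegree ≤ m * D := by
  rw [aeval_def, eval₂_eq']
  apply Polynomial.natDegree_sum_le_of_forall_le
  intro β hβ
  refine Polynomial.natDegree_mul_le.trans ?_
  have h1 : (algebraMap ℂ (Polynomial ℂ) (coeff β G)).natDegree = 0 :=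
    Polynomial.natDegree_C _
  rw [h1, zero_add]
  refine (Polynomial.natDegree_prod_le _ _).trans ?_
  have h2 : ∑ j, β j = m := by
    have h3 := hG (MvPolynomial.mem_support_iff.1 hβ)
    have h4 : β.degree = m := by
      rw [Finsupp.degree_eq_weight_one]
      exact h3
    rw [Finsupp.degree_eq_sum] at h4
    exact h4
  rw [← h2, Finset.sum_mul]
  apply Finset.sum_le_sum
  intro j _
  exact (Polynomial.natDegree_pow_le).trans (Nat.mul_le_mul_left _ (hD j))

theorem nc_of_wr {p : Fin (N + 1) → Polynomial ℂ} {j1 j2 : Fin (N + 1)}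
    (h : Polynomial.derivative (p j1) * p j2 - p j1 * Polynomial.derivative (p j2) ≠ 0) :
    ∃ s t j k, (p j).eval s * (p k).eval t ≠ (p k).eval s * (p j).eval t := by
  by_contra hcon
  push Not at hcon
  apply h
  by_cases h0 : p j2 = 0
  · rw [h0]
    simp
  · obtain ⟨t, ht⟩ : ∃ t, (p j2).eval t ≠ 0 := by
      by_contra hc2
      push Not at hc2
      exact h0 (Polynomial.funext fun t => by rw [hc2, Polynomial.eval_zero])
    have h1 : p j1 = Polynomial.C ((p j1).eval t / (p j2).eval t) * p j2 := by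
      apply Polynomial.funext
      intro s
      rw [Polynomial.eval_mul, Polynomial.eval_C]
      have h2 := hcon s t j1 j2
      field_simp
      linear_combination h2
    rw [h1, Polynomial.derivative_C_mul]
    ring

theorem wr_of_nc {p : Fin (N + 1) → Polynomial ℂ}
    (h : ∃ s t j k, (p j).eval s * (p k).eval t ≠ (p k).eval s * (p j).eval t) :
    ∃ j1 j2, Polynomial.derivative (p j1) * p j2 - p j1 * Polynomial.derivative (p j2) ≠ 0 := by
  obtain ⟨s, t, j, k, h1⟩ := h
  by_contra hcon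
  push Not at hcon
  have h2 := hcon j k
  by_cases h0 : p k = 0
  · apply h1
    rw [h0]
    simp
  · obtain ⟨c, hc⟩ := Pool.Agent.Y377.IL.prop_of_wronskian h0 (sub_eq_zero.1 h2)
    apply h1
    rw [hc]
    simp only [Polynomial.eval_mul, Polynomial.eval_C]
    ring

end Pool.Agent.U178.WF
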