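import Mathlib
import Pool.Agent.N131.SU.Eng
import Pool.Agent.U178.WF.Spec

/-!
Sequences of curves and of hypersurfaces of fixed degree: the alternatives.
-/

set_option autoImplicit false

namespace Pool.Agent.U178.WF

open MeasureTheory Set Filter Topology Metric Real ValueDistribution MeromorphicOn Function
open Asymptotics MvPolynomial
open Pool.Agent.N131.SU
open Pool.Agent.Y377.IL
open Pool.Agent.N131.SR (Wr Wr_diff Tf diff_mero diff_ne form_diff ratio_le exists_index Big Datum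
  img img_diff Nb Nb_nonneg exists_big eval_img src_ne Tf_le)
open Pool.Agent.TH143.EL (codis_ev codis_of_ev mero_id mero_ne mero_an)

variable {N : ℕ} {σ : ℂ ≃+* CS}

/-- sequences of forms of a fixed degree -/
theorem exists_poly (σ : ℂ ≃+* CS) {m : ℕ} {Gs : ℕ → MvPolynomial (Fin (N + 1)) ℂ}
    (hG : ∀ᶠ k in (U : Filter ℕ), (Gs k).IsHomogeneous m) :
    ∃ G : MvPolynomial (Fin (N + 1)) ℂ, G.IsHomogeneous m ∧
      ∀ᶠ k in (U : Filter ℕ), sq σ G k = Gs k := by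
  classical
  let A : Finset (Fin (N + 1) →₀ ℕ) := Finset.univ.finsuppAntidiag m
  have hA : ∀ β : Fin (N + 1) →₀ ℕ, β ∈ A ↔ ∑ j, β j = m := by
    intro β
    rw [Finset.mem_finsuppAntidiag]
    exact ⟨fun h1 => h1.1, fun h1 => ⟨h1, Finset.subset_univ _⟩⟩
  let G : MvPolynomial (Fin (N + 1)) ℂ :=
    ∑ β ∈ A, monomial β (σ.symm (gc fun k => coeff β (Gs k)))
  have hc : ∀ β ∈ A, coeff β G = σ.symm (gc fun k => coeff β (Gs k)) := by
    intro β hβ
    rw [coeff_sum, Finset.sum_eq_single β]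
    · rw [coeff_monomial, if_pos rfl]
    · intro γ _ hγ
      rw [coeff_monomial, if_neg hγ]
    · intro h1
      exact absurd hβ h1
  have hGm : G.IsHomogeneous m := by
    apply IsHomogeneous.sum
    intro β hβ
    apply isHomogeneous_monomial
    rw [Finsupp.degree_eq_sum]
    exact (hA β).1 hβ
  refine ⟨G, hGm, ?_⟩
  have h1 : ∀ᶠ k in (U : Filter ℕ), ∀ β ∈ A, coeff β (sq σ G k) = coeff β (Gs k) := by
    rw [eventually_all_finset]
    intro β hβ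
    have h2 : gc (fun k => coeff β (sq σ G k)) = gc fun k => coeff β (Gs k) := by
      rw [← coeff_sq, hc β hβ, RingEquiv.apply_symm_apply]
    exact gc_eq.1 h2
  filter_upwards [h1, hG] with k hk hGk
  ext β
  by_cases hβ : β ∈ A
  · exact hk β hβ
  · have h2 : ¬ β.degree = m := by
      intro h3
      apply hβ
      rw [hA, ← Finsupp.degree_eq_sum]
      exact h3
    rw [(sq_hom hGm k).coeff_eq_zero h2, hGk.coeff_eq_zero h2]

section

variable {Qs : ℕ → MvPolynomial (Fin (N + 1)) ℂ}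

theorem sq_codV {G : MvPolynomial (Fin (N + 1)) ℂ}
    (h : ∀ᶠ k in (U : Filter ℕ), sq σ G k = Qs k) : ∀ᶠ p in cod, sq σ G p.1 = Qs p.1 := by
  rw [ev_cod]
  exact h.mono fun k hk => Eventually.of_forall fun _ => hk

/-- **Sequences of curves and complements of hypersurfaces.** -/
theorem log_seqV (σ : ℂ ≃+* CS) {P : (Pt → ℂ) → Prop} (HP : Cl P)
    {f : Fin (N + 1) → Pt → ℂ} {l : Fin (N + 1)}
    (hl0 : ∀ᶠ p in cod, f l p ≠ 0) {Q : MvPolynomial (Fin (N + 1)) ℂ} {d : ℕ} (hd : 0 < d)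
    (hQ : Q.IsHomogeneous d) (hQs : ∀ᶠ k in (U : Filter ℕ), sq σ Q k = Qs k)
    (hX : ∀ᶠ p in cod, eval (fun j => f j p) (Qs p.1) ≠ 0)
    (hl : ∀ α : Fin (N + 1) →₀ ℕ, ∑ j, α j = d →
      IterS P fun p => (∏ j, f j p ^ α j) / eval (fun j => f j p) (Qs p.1)) :
    (∀ j, AlgRatioS P (f j) (f l)) ∨
      ∃ x : Fin (N + 1) → KS σ, (∀ G : MvPolynomial (Fin (N + 1)) ℂ,
        (∃ e, G.IsHomogeneous e) → (aeval x G = 0 ↔ VanS σ f G)) ∧ PFam x Q := by
  classical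
  let α : Fin (N + 1) → Fin (N + 1) →₀ ℕ := fun j => Finsupp.single j 1 + Finsupp.single l (d - 1)
  have hα : ∀ j, ∑ i, α j i = d := by
    intro j
    rw [sum_two]
    omega
  let h : Fin (N + 1) → Pt → ℂ := fun j p => (∏ i, f i p ^ α j i) / eval (fun i => f i p) (Qs p.1)
  let c : Pt → ℂ := fun p => f l p ^ (d - 1) / eval (fun i => f i p) (Qs p.1)
  have hh : ∀ j p, h j p = c p * f j p := by
    intro j p
    change (∏ i, f i p ^ α j i) / eval (fun i => f i p) (Qs p.1) =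
      f l p ^ (d - 1) / eval (fun i => f i p) (Qs p.1) * f j p
    rw [prod_two (fun i => f i p)]
    ring
  have hc : ∀ᶠ p in cod, c p ≠ 0 := by
    filter_upwards [hl0, hX] with p h1 h2
    exact div_ne_zero (pow_ne_zero _ h1) h2
  let A : Finset (Fin (N + 1) →₀ ℕ) := Finset.univ.finsuppAntidiag d
  have hA : ∀ β : Fin (N + 1) →₀ ℕ, β ∈ A ↔ ∑ j, β j = d := by
    intro β
    rw [Finset.mem_finsuppAntidiag]
    exact ⟨fun h1 => h1.1, fun h1 => ⟨h1, Finset.subset_univ _⟩⟩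
  obtain ⟨z0, F, R, hS, han, hz2, hk⟩ := exists_spt σ HP hc hh (fun j => hl (α j) (hα j)) hl0
    (ι := A) (k := fun β p => (∏ j, f j p ^ β.1 j) / eval (fun j => f j p) (Qs p.1))
    (fun β => hl β.1 ((hA β.1).1 β.2)) (hX.and (hc.and (sq_codV hQs)))
  obtain ⟨D, hp⟩ := hS.pnt
  set x : Fin (N + 1) → KS σ := fun j => tys σ z0 (h j) with hx
  have hQx : aeval x Q ≠ 0 := by
    rw [Ne, hS.val Q ⟨d, hQ⟩]
    intro h0
    obtain ⟨p, h1, h2, h3⟩ := (h0.and (hX.and (sq_codV hQs))).exists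
    rw [h3] at h1
    exact h2 h1
  have hreg : ∀ β : Fin (N + 1) →₀ ℕ, ∑ j, β j = d → (∏ j, x j ^ β j) / aeval x Q ∈ R := by
    intro β hβ
    obtain ⟨k1, k2⟩ := hk ⟨β, (hA β).2 hβ⟩
    have h5 : (∏ j, x j ^ β j) / aeval x Q =
        tys σ z0 fun p => (∏ j, f j p ^ β j) / eval (fun j => f j p) (Qs p.1) := by
      rw [div_eq_iff hQx]
      obtain ⟨a2, b2⟩ := tys_eval (σ := σ) hT han Q
      obtain ⟨a1, b1⟩ := anS_prod (σ := σ) hT Finset.univ (a := fun j p => h j p ^ β j)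
        fun j => (anS_pow (σ := σ) hT (han j) (β j)).1
      have e1 : ∏ j, x j ^ β j = tys σ z0 fun p => ∏ j, h j p ^ β j := by
        rw [b1]
        exact Finset.prod_congr rfl fun j _ => (anS_pow hT (han j) (β j)).2.symm
      have e2 : aeval x Q = tys σ z0 fun p => eval (fun j => h j p) (sq σ Q p.1) := b2.symm
      rw [e1, e2, ← tys_mul hT k1 a2]
      apply tys_congr hT
      filter_upwards [hz2] with k hk
      filter_upwards [hk] with z hz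
      obtain ⟨h1, h2, h3⟩ := hz
      have h4 : sq σ Q k = Qs k := h3
      change ∏ j, h j (k, z) ^ β j = (∏ j, f j (k, z) ^ β j) / eval (fun j => f j (k, z)) (Qs k) *
        eval (fun j => h j (k, z)) (sq σ Q k)
      have h6 : (fun j => h j (k, z)) = fun j => c (k, z) * f j (k, z) :=
        funext fun j => hh j (k, z)
      rw [h4, h6, eval_scale (h4 ▸ sq_hom hQ k)]
      simp only [hh, mul_pow, Finset.prod_mul_distrib]
      rw [Finset.prod_pow_eq_pow_sum, hβ]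
      have h1' : eval (fun j => f j (k, z)) (Qs k) ≠ 0 := h1
      field_simp
    rw [h5]
    exact k2
  rcases hp.log hd hQ hQx hreg with h1 | h1
  · exact Or.inl fun j => hS.coord (h1 j)
  · exact Or.inr ⟨x, hS.val, h1⟩

end

section seq

variable {M n e : ℕ} (c : ℕ → Crv M N n e) {Qs : ℕ → MvPolynomial (Fin (N + 1)) ℂ}
  {L : ℕ → Filter ℝ} {τ : ℕ × ℝ → ℝ}

/-- the regular functions -/
theorem seq_logV (H : Cmp L τ) (hT : LO L τ (Tfs (Gs c)))
    {d : ℕ} (hd : 0 < d) (hQ : ∀ k, (Qs k).IsHomogeneous d)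
    (hq0 : ∀ k, ∃ z, eval (fun j => (c k).f j z) (Qs k) ≠ 0)
    (hNW : Nbs (Wrs (gs c)) =o[Lf L] τ)
    (hNq : Nbs (fun p => eval (fun j => fs c j p) (Qs p.1)) =o[Lf L] τ)
    (α : Fin (N + 1) →₀ ℕ) (hα : ∑ j, α j = d) :
    IterS (Sm L τ) fun p => (∏ j, fs c j p ^ α j) / eval (fun j => fs c j p) (Qs p.1) := by
  obtain ⟨a, b, ha, hb, hgd, hW⟩ := seq_data c
  have he : 0 < e := (c 0).D.he
  have hev : ∀ p : Pt, eval (fun k => Gs c k p) (aeval (c p.1).P (Qs p.1)) =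
      eval (fun j => fs c j p) (Qs p.1) := fun p => fs_eval c p (Qs p.1)
  have h1 := reg_iter (Q := fun k => aeval (c k).P (Qs k)) H hT (Gs_ent c) (Gs_ne c)
    (Nat.mul_pos he hd) (fun k => (hQ k).aeval _ (c k).D.hP) (fun k => by
      obtain ⟨z, hz⟩ := hq0 k
      refine ⟨z, ?_⟩
      have h2 := hev (k, z)
      change eval (fun j => Gs c j (k, z)) (aeval (c k).P (Qs k)) ≠ 0
      rw [h2]
      exact hz) hgd ha hb hW hNW (by
      simp only [hev]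
      exact hNq)
  have h2 := form_iter (cl_sm H) h1 (F := fun k => ∏ j, (c k).P j ^ α j) (fun k => by
    have h3 : e * d = ∑ j, e * α j := by rw [← hα, Finset.mul_sum]
    rw [h3]
    exact IsHomogeneous.prod _ _ _ fun j _ => ((c k).D.hP j).pow _)
  simp only [hev] at h2
  have h3 : (fun z : Pt => eval (fun k => Gs c k z) (∏ j, (c z.1).P j ^ α j) /
      eval (fun j => fs c j z) (Qs z.1)) =
      fun z => (∏ j, fs c j z ^ α j) / eval (fun j => fs c j z) (Qs z.1) := by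
    funext z
    rw [map_prod]
    simp only [map_pow]
    rfl
  rwa [h3] at h2

end seq

variable {M n e : ℕ}

/-- the uniform bound for a set of pairs of a curve and a form -/
def UBV (Z : Crv M N n e × MvPolynomial (Fin (N + 1)) ℂ → Prop) : Prop :=
  ∃ C : ℝ, ∀ c, Z c → ∃ E : Set ℝ, volume E < ⊤ ∧
    ∀ r, 1 ≤ r → r ∉ E → Tf c.1.f r ≤ C * c.1.X (fun z => eval (fun j => c.1.f j z) c.2) r

theorem ub_dataV {Z : ℕ → Crv M N n e × MvPolynomial (Fin (N + 1)) ℂ → Prop}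
    (hZ : ∀ k, ¬ UBV (Z k)) :
    ∃ (c : ℕ → Crv M N n e) (Qs : ℕ → MvPolynomial (Fin (N + 1)) ℂ) (L : ℕ → Filter ℝ),
      (∀ k, Z k (c k, Qs k)) ∧
      Cmp L (fun p => Tf (c p.1).f p.2) ∧ (∀ᶠ p in Lf L, 1 ≤ p.2 ∧ 0 < Tf (c p.1).f p.2) ∧
      LO L (fun p => Tf (c p.1).f p.2) (Tfs (Gs c)) ∧
      Nbs (Wrs (gs c)) =o[Lf L] (fun p => Tf (c p.1).f p.2) ∧
      Nbs (fun p => eval (fun j => fs c j p) (Qs p.1)) =o[Lf L] (fun p => Tf (c p.1).f p.2) := by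
  obtain ⟨cq, L, h1, h2, h3, h4⟩ := eng
    (S := fun c : Crv M N n e × MvPolynomial (Fin (N + 1)) ℂ => Tf c.1.f)
    (X := fun c : Crv M N n e × MvPolynomial (Fin (N + 1)) ℂ =>
      c.1.X (fun z => eval (fun j => c.1.f j z) c.2))
    (fun c r hr => c.1.X_ge _ r hr) (Z := Z) hZ
  let c : ℕ → Crv M N n e := fun k => (cq k).1
  let Qs : ℕ → MvPolynomial (Fin (N + 1)) ℂ := fun k => (cq k).2
  let q : ℕ → ℂ → ℂ := fun k z => eval (fun j => (c k).f j z) (Qs k)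
  have h5 : ∀ᶠ p : ℕ × ℝ in Lf L, 0 ≤ Nb (Wr (c p.1).g) p.2 ∧ 0 ≤ Nb (q p.1) p.2 ∧
      0 ≤ Real.log p.2 ∧ 0 ≤ Real.log (1 + |Tf (c p.1).G p.2|) := h4.mono fun p hp =>
    ⟨Nb_nonneg hp.1, Nb_nonneg hp.1, Real.log_nonneg hp.1,
      Real.log_nonneg (by linarith [abs_nonneg (Tf (c p.1).G p.2)])⟩
  have hXd : ∀ p : ℕ × ℝ, (c p.1).X (q p.1) p.2 = Nb (Wr (c p.1).g) p.2 +
    Nb (q p.1) p.2 + Real.log p.2 + Real.log (1 + |Tf (c p.1).G p.2|) := fun p => rfl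
  refine ⟨c, Qs, L, h1, h2, h4, ?_, ?_, ?_⟩
  · refine o_of_ev (h5.mono fun p hp => ?_) h3
    refine ⟨hp.2.2.2, ?_⟩
    change Real.log (1 + |Tf (c p.1).G p.2|) ≤ (c p.1).X (q p.1) p.2
    rw [hXd]
    linarith [hp.1, hp.2.1, hp.2.2.1]
  · refine o_of_ev (h5.mono fun p hp => ?_) h3
    refine ⟨hp.1, ?_⟩
    change Nb (Wr (c p.1).g) p.2 ≤ (c p.1).X (q p.1) p.2
    rw [hXd]
    linarith [hp.2.2.2, hp.2.1, hp.2.2.1]
  · refine o_of_ev (h5.mono fun p hp => ?_) h3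
    refine ⟨hp.2.1, ?_⟩
    change Nb (q p.1) p.2 ≤ (c p.1).X (q p.1) p.2
    rw [hXd]
    linarith [hp.2.2.2, hp.1, hp.2.2.1]

/-- **From the failure of uniform bounds to families of punctured lines.** -/
theorem ub_orV {d : ℕ} {Z : ℕ → Crv M N n e × MvPolynomial (Fin (N + 1)) ℂ → Prop}
    (hZQ : ∀ k c, Z k c → c.2.IsHomogeneous d ∧ ∃ z, eval (fun j => c.1.f j z) c.2 ≠ 0)
    (hZ : ∀ k, ¬ UBV (Z k)) :
    ∃ (c : ℕ → Crv M N n e) (Qs : ℕ → MvPolynomial (Fin (N + 1)) ℂ),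
      (∀ k, Z k (c k, Qs k)) ∧ ∀ σ : ℂ ≃+* CS, ∃ Q : MvPolynomial (Fin (N + 1)) ℂ,
        Q.IsHomogeneous d ∧ (∀ᶠ k in (U : Filter ℕ), sq σ Q k = Qs k) ∧
        ∃ x : Fin (N + 1) → KS σ, (∀ G : MvPolynomial (Fin (N + 1)) ℂ,
          (∃ e, G.IsHomogeneous e) → (aeval x G = 0 ↔ VanS σ (fs c) G)) ∧ PFam x Q := by
  obtain ⟨c, Qs, L, h1, h2, h3, h4, h5, h6⟩ := ub_dataV hZ
  have hQd : ∀ k, (Qs k).IsHomogeneous d := fun k => (hZQ k _ (h1 k)).1
  refine ⟨c, Qs, h1, fun σ => ?_⟩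
  obtain ⟨Q, hQ, hσ⟩ := exists_poly σ (Gs := Qs) (Eventually.of_forall hQd)
  refine ⟨Q, hQ, hσ, ?_⟩
  have hq0 : ∀ k, ∃ z, eval (fun j => (c k).f j z) (Qs k) ≠ 0 := fun k => (hZQ k _ (h1 k)).2
  obtain ⟨l, hl⟩ := ev_index (P := fun l k => ∃ z, fs c l (k, z) ≠ 0)
    fun k => (fs_ne c (k, 0)).imp fun l hl => ⟨0, hl⟩
  have hlne : ∀ᶠ z in cod, fs c l z ≠ 0 := ent_ne (fs_ent c l) hl
  rcases Nat.eq_zero_or_pos d with hd | hd
  · subst hd
    obtain ⟨a, rfl⟩ := Pool.Agent.N131.SR.const_form hQ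
    have ha : a ≠ 0 := by
      rintro rfl
      obtain ⟨k, hk⟩ := hσ.exists
      obtain ⟨z, hz⟩ := hq0 k
      apply hz
      rw [← hk]
      have h7 : sq σ (C (0 : ℂ) : MvPolynomial (Fin (N + 1)) ℂ) k = 0 := by
        unfold N131.SU.sq
        rw [C_0, MvPolynomial.support_zero, Finset.sum_empty]
      rw [h7, map_zero]
    obtain ⟨u, hu, hit⟩ := seq_coord c h2 h4 h5
    rcases proj_seq σ (cl_sm h2) hu (fun j p => rfl) hit hlne ha with h7 | h7
    · exact (not_alg c h2 h3 hl h7).elim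
    · exact h7
  · have hX : ∀ᶠ p in cod, eval (fun j => fs c j p) (Qs p.1) ≠ 0 :=
      ent_ne (form_ent (fs_ent c) Qs) (Eventually.of_forall hq0)
    rcases log_seqV σ (cl_sm h2) hlne hd hQ hσ hX
      (fun α hα => seq_logV c h2 h4 hd hQd hq0 h5 h6 α hα) with h7 | h7
    · exact (not_alg c h2 h3 hl h7).elim
    · exact h7

end Pool.Agent.U178.WF
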