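import Mathlib
import Pool.Agent.N131.SU.Fin
import Pool.Agent.U178.WF.Seq

/-!
Entire curves with little ramification in families of open varieties: the dichotomy.
-/

set_option autoImplicit false

namespace Pool.Agent.U178.WF

open MeasureTheory Set Filter MvPolynomial
open Pool.Agent.N131.SU
open Pool.Agent.N131.SR (Tf Nb Wr)
open Pool.Agent.V1153.UG (GmBdd)

variable {N M n e : ℕ} {σ : ℂ ≃+* CS}

theorem gc_zero_iff {a : ℕ → ℂ} : gc a = 0 ↔ ∀ᶠ k in (U : Filter ℕ), a k = 0 := by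
  rw [← map_zero gc, gc_eq]
  rfl

theorem gc_ne {a : ℕ → ℂ} (h : gc a ≠ 0) : ∀ᶠ k in (U : Filter ℕ), a k ≠ 0 := by
  rw [Ne, gc_zero_iff] at h
  exact Ultrafilter.eventually_not.2 h

/-- forms which vanish along a polynomial curve -/
theorem ev_zero {D m : ℕ} {p : Fin (N + 1) → Polynomial ℂ} (hD : ∀ j, (p j).natDegree ≤ D)
    {G : MvPolynomial (Fin (N + 1)) ℂ} (hG : G.IsHomogeneous m) (h : aeval p G = 0) :
    ∀ᶠ k in (U : Filter ℕ), aeval (psq σ D p k) (sq σ G k) = 0 := by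
  have h1 : ∀ᶠ k in (U : Filter ℕ), ∀ s ∈ Finset.range (m * D + 1),
      (aeval (psq σ D p k) (sq σ G k)).coeff s = 0 := by
    rw [eventually_all_finset]
    intro s _
    rw [← gc_zero_iff, ← gc_coeff hD G s, h, Polynomial.coeff_zero, map_zero]
  filter_upwards [h1] with k hk
  ext s
  rw [Polynomial.coeff_zero]
  by_cases hs : s ∈ Finset.range (m * D + 1)
  · exact hk s hs
  · apply Polynomial.coeff_eq_zero_of_natDegree_lt
    have h2 := natDegree_fam (psq_deg σ D p k) (sq_hom (σ := σ) hG k)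
    rw [Finset.mem_range] at hs
    omega

/-- forms which are monomials along a polynomial curve -/
theorem ev_mono {D m : ℕ} {p : Fin (N + 1) → Polynomial ℂ} (hD : ∀ j, (p j).natDegree ≤ D)
    {G : MvPolynomial (Fin (N + 1)) ℂ} (hG : G.IsHomogeneous m) {c : ℂ} (hc : c ≠ 0) {l : ℕ}
    (h : aeval p G = Polynomial.C c * Polynomial.X ^ l) :
    ∀ᶠ k in (U : Filter ℕ), ∃ c' : ℂ, c' ≠ 0 ∧
      aeval (psq σ D p k) (sq σ G k) = Polynomial.C c' * Polynomial.X ^ l := by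
  have h1 : ∀ᶠ k in (U : Filter ℕ), ∀ s ∈ (Finset.range (m * D + 1)).erase l,
      (aeval (psq σ D p k) (sq σ G k)).coeff s = 0 := by
    rw [eventually_all_finset]
    intro s hs
    rw [← gc_zero_iff, ← gc_coeff hD G s, h, Polynomial.coeff_C_mul, Polynomial.coeff_X_pow,
      if_neg (Finset.ne_of_mem_erase hs), mul_zero, map_zero]
  have h2 : ∀ᶠ k in (U : Filter ℕ), (aeval (psq σ D p k) (sq σ G k)).coeff l ≠ 0 := by
    apply gc_ne
    rw [← gc_coeff hD G l, h, Polynomial.coeff_C_mul, Polynomial.coeff_X_pow, if_pos rfl, mul_one]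
    exact (map_ne_zero_iff σ σ.injective).2 hc
  filter_upwards [h1, h2] with k hk1 hk2
  refine ⟨_, hk2, ?_⟩
  ext s
  rw [Polynomial.coeff_C_mul, Polynomial.coeff_X_pow]
  by_cases hsl : s = l
  · rw [if_pos hsl, mul_one, hsl]
  · rw [if_neg hsl, mul_zero]
    by_cases hs : s ∈ Finset.range (m * D + 1)
    · exact hk1 s (Finset.mem_erase.2 ⟨hsl, hs⟩)
    · apply Polynomial.coeff_eq_zero_of_natDegree_lt
      have h3 := natDegree_fam (psq_deg σ D p k) (sq_hom (σ := σ) hG k)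
      rw [Finset.mem_range] at hs
      omega

theorem ev_wr {D : ℕ} {p : Fin (N + 1) → Polynomial ℂ} (hD : ∀ j, (p j).natDegree ≤ D)
    {j1 j2 : Fin (N + 1)}
    (h : Polynomial.derivative (p j1) * p j2 - p j1 * Polynomial.derivative (p j2) ≠ 0) :
    ∀ᶠ k in (U : Filter ℕ), Polynomial.derivative (psq σ D p k j1) * psq σ D p k j2 -
      psq σ D p k j1 * Polynomial.derivative (psq σ D p k j2) ≠ 0 := by
  obtain ⟨s, hs⟩ : ∃ s, (Polynomial.derivative (p j1) * p j2 -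
      p j1 * Polynomial.derivative (p j2)).coeff s ≠ 0 := by
    by_contra hcon
    push Not at hcon
    exact h (Polynomial.ext fun s => by rw [hcon, Polynomial.coeff_zero])
  have h1 : ∀ᶠ k in (U : Filter ℕ), (Polynomial.derivative (psq σ D p k j1) * psq σ D p k j2 -
      psq σ D p k j1 * Polynomial.derivative (psq σ D p k j2)).coeff s ≠ 0 := by
    apply gc_ne
    rw [← gc_wr hD j1 j2 s]
    exact (map_ne_zero_iff σ σ.injective).2 hs
  filter_upwards [h1] with k hk h0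
  apply hk
  rw [h0, Polynomial.coeff_zero]

/-- the pairs of a curve and a form such that the curve lies in the zero set of forms of degree at
most `D` without curves of degree at most `k` in the complement of the form -/
def Bad (d D k : ℕ) (c : Crv M N n e × MvPolynomial (Fin (N + 1)) ℂ) : Prop :=
  c.2.IsHomogeneous d ∧ (∃ z, eval (fun j => c.1.f j z) c.2 ≠ 0) ∧
    ∃ S : Set (MvPolynomial (Fin (N + 1)) ℂ), (∀ F ∈ S, ∃ m ≤ D, F.IsHomogeneous m) ∧
      (∀ F ∈ S, ∀ z, eval (fun j => c.1.f j z) F = 0) ∧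
      ∀ p, ¬ GmBdd (Ideal.span S) c.2 k p

/-- **The dichotomy.** -/
theorem dich (N M n e d D : ℕ) :
    ∃ B : ℕ, UBV (M := M) (N := N) (n := n) (e := e) (Bad d D B) := by
  classical
  by_contra hcon
  push Not at hcon
  obtain ⟨c, Qs, h1, h2⟩ := ub_orV (d := d) (Z := fun k => Bad (M := M) (N := N) (n := n)
    (e := e) d D k) (fun k c hc => ⟨hc.1, hc.2.1⟩) hcon
  obtain ⟨σ, -⟩ := exists_iso Set.countable_empty
  obtain ⟨Q, hQ, hσQ, x, hx, M', i1, i2, P, hP, ⟨a, l, ha, hal⟩, j1, j2, hW⟩ := h2 σ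
  obtain ⟨p, hp1, ⟨a', ha', hal'⟩, hp3⟩ := spec_fam ha hal hW
  obtain ⟨B, hB⟩ : ∃ D, ∀ j, (p j).natDegree ≤ D := ⟨∑ j, (p j).natDegree, fun j =>
    Finset.single_le_sum (f := fun j => (p j).natDegree) (fun _ _ => Nat.zero_le _)
      (Finset.mem_univ j)⟩
  choose hQd hQn S hS1 hS2 hS3 using h1
  have h3 : ∀ᶠ k in (U : Filter ℕ), ∀ F ∈ S k, aeval (psq σ B p k) F = 0 := by
    by_contra hc2
    rw [← Ultrafilter.eventually_not] at hc2
    have h4 : ∀ᶠ k in (U : Filter ℕ), ∃ m : Fin (D + 1), ∃ F ∈ S k, F.IsHomogeneous m ∧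
        aeval (psq σ B p k) F ≠ 0 := by
      filter_upwards [hc2] with k hk
      push Not at hk
      obtain ⟨F, hF, hF0⟩ := hk
      obtain ⟨m, hm, hFm⟩ := hS1 k F hF
      exact ⟨⟨m, by omega⟩, F, hF, hFm, hF0⟩
    have h5 : ∃ m : Fin (D + 1), ∀ᶠ k in (U : Filter ℕ), ∃ F ∈ S k, F.IsHomogeneous m ∧
        aeval (psq σ B p k) F ≠ 0 := by
      have h6 : ∀ᶠ k in (U : Filter ℕ), k ∈ ⋃ m ∈ (Set.univ : Set (Fin (D + 1))),
          {k | ∃ F ∈ S k, F.IsHomogeneous m ∧ aeval (psq σ B p k) F ≠ 0} := by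
        filter_upwards [h4] with k hk
        obtain ⟨m, hm⟩ := hk
        exact Set.mem_biUnion (Set.mem_univ m) hm
      obtain ⟨m, -, hm⟩ := (Ultrafilter.finite_biUnion_mem_iff Set.finite_univ).1 h6
      exact ⟨m, hm⟩
    obtain ⟨m, hm⟩ := h5
    let Gs : ℕ → MvPolynomial (Fin (N + 1)) ℂ := fun k =>
      if h : ∃ F ∈ S k, F.IsHomogeneous m ∧ aeval (psq σ B p k) F ≠ 0 then h.choose else 0
    have hGs : ∀ᶠ k in (U : Filter ℕ), Gs k ∈ S k ∧ (Gs k).IsHomogeneous m ∧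
        aeval (psq σ B p k) (Gs k) ≠ 0 := by
      filter_upwards [hm] with k hk
      simp only [Gs, dif_pos hk]
      exact hk.choose_spec
    obtain ⟨G, hG, hσG⟩ := exists_poly σ (Gs := Gs) (hGs.mono fun k hk => hk.2.1)
    have h6 : aeval x G = 0 := by
      rw [hx G ⟨m, hG⟩]
      change ∀ᶠ p in cod, eval (fun j => fs c j p) (sq σ G p.1) = 0
      rw [ev_cod]
      filter_upwards [hσG, hGs] with k hk1 hk2
      refine Eventually.of_forall fun z => ?_
      rw [hk1]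
      exact hS2 k _ hk2.1 z
    have h7 : aeval p G = 0 := hp1 G ((hP G ⟨m, hG⟩).2 h6)
    obtain ⟨k, hk1, hk2, hk3⟩ := ((ev_zero (σ := σ) hB hG h7).and (hσG.and hGs)).exists
    rw [hk2] at hk1
    exact hk3.2.2 hk1
  have h4 : ∀ᶠ k in (U : Filter ℕ), B ≤ k :=
    Nat.hyperfilter_le_atTop (eventually_ge_atTop B)
  obtain ⟨k, hk1, hk2, hk3, hk4, hk5⟩ := (h3.and (h4.and ((ev_mono (σ := σ) hB hQ ha' hal').and
    (hσQ.and (ev_wr (σ := σ) hB hp3))))).exists
  apply hS3 k (psq σ B p k)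
  refine ⟨fun j => (psq_deg σ B p k j).trans hk2, fun F hF _ => ?_, ?_, nc_of_wr hk5⟩
  · have h8 : Ideal.span (S k) ≤ RingHom.ker (aeval (psq σ B p k) :
        MvPolynomial (Fin (N + 1)) ℂ →ₐ[ℂ] Polynomial ℂ).toRingHom := by
      rw [Ideal.span_le]
      intro F hF
      exact hk1 F hF
    exact h8 hF
  · obtain ⟨c', hc', hc2⟩ := hk3
    rw [hk4] at hc2
    exact ⟨c', l, hc', hc2⟩

theorem GmBdd.mono {I : Ideal (MvPolynomial (Fin (N + 1)) ℂ)}
    {Q : MvPolynomial (Fin (N + 1)) ℂ} {a b : ℕ} (hab : a ≤ b) {p : Fin (N + 1) → Polynomial ℂ}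
    (h : GmBdd I Q a p) : GmBdd I Q b p := ⟨fun j => (h.deg j).trans hab, h.mem, h.off, h.nc⟩

/-- **The dichotomy, uniform in the dimension of the span.** -/
theorem dich_fin (N M e d D : ℕ) : ∃ (B : ℕ) (C : ℝ), ∀ (n : ℕ) (c : Crv M N n e)
    (Q : MvPolynomial (Fin (N + 1)) ℂ), Q.IsHomogeneous d →
      (∃ z, eval (fun j => c.f j z) Q ≠ 0) →
      ∀ S : Set (MvPolynomial (Fin (N + 1)) ℂ), (∀ F ∈ S, ∃ m ≤ D, F.IsHomogeneous m) →
        (∀ F ∈ S, ∀ z, eval (fun j => c.f j z) F = 0) →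
        (∀ p, ¬ GmBdd (Ideal.span S) Q B p) →
          c.Bd (Tf c.f) (fun z => eval (fun j => c.f j z) Q) C := by
  choose B hB using fun n => dich N M n e d D
  choose C hC using hB
  refine ⟨∑ i ∈ Finset.range (M + 2), B i, ∑ i ∈ Finset.range (M + 2), 2 * |C i|,
    fun n c Q hQ hq S hS1 hS2 hS3 => ?_⟩
  have hn : n ∈ Finset.range (M + 2) := Finset.mem_range.2 (by have := c.n_le; omega)
  refine c.bd_of ?_ (hC n (c, Q) ⟨hQ, hq, S, hS1, hS2, fun p hp => ?_⟩)
  · exact Finset.single_le_sum (f := fun i => 2 * |C i|) (fun i _ => by positivity) hn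
  · exact hS3 p (GmBdd.mono (Finset.single_le_sum (f := B) (fun _ _ => Nat.zero_le _) hn) hp)

end Pool.Agent.U178.WF
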