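import Mathlib
import Pool.Agent.N131.SU.Rat
import Pool.Agent.W603.BP.Rat
import Pool.Agent.U178.WF.Spec

/-!
Entire curves of logarithmic growth are rational curves of bounded degree. The theorem
`RatP_rational` is copied from `Pool/Agent/N254/SQ/RatP.lean` (helper946).
-/

set_option autoImplicit false

namespace Pool.Agent.U178.WF.Rat

open Filter Metric Set Topology Pool.Agent.H159R3.NV ValueDistribution MeromorphicOn
open Pool.Agent.W603.BP

/-- the mean of `|log ‖f‖|` is bounded by twice the characteristic -/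
theorem RatP_avg {f : ℂ → ℂ} (hf : Meromorphic f) {r : ℝ} (hr : 1 ≤ r) :
    Real.circleAverage (fun z => |Real.log ‖f z‖|) 0 r ≤
      characteristic f ⊤ r + characteristic f⁻¹ ⊤ r := by
  have e : (fun z => |Real.log ‖f z‖|) = fun z => Real.posLog ‖f z‖ + Real.posLog ‖f⁻¹ z‖ := by
    funext z
    rw [Pi.inv_apply, norm_inv, Real.posLog_apply, Real.posLog_apply, Real.log_inv]
    rcases le_total 0 (Real.log ‖f z‖) with h | h
    · rw [abs_of_nonneg h, max_eq_right h, max_eq_left (by linarith), add_zero]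
    · rw [abs_of_nonpos h, max_eq_left h, max_eq_right (by linarith), zero_add]
  have hf' : Meromorphic f⁻¹ := fun z => (hf z).inv
  rw [e, Real.circleAverage_fun_add (ci_posLog hf r) (ci_posLog hf' r)]
  have h1 : Real.circleAverage (fun z => Real.posLog ‖f z‖) 0 r = proximity f ⊤ r := by
    rw [proximity_top]
  have h2 : Real.circleAverage (fun z => Real.posLog ‖f⁻¹ z‖) 0 r = proximity f⁻¹ ⊤ r := by
    rw [proximity_top]
  rw [h1, h2]
  unfold characteristic
  have h3 : 0 ≤ logCounting f ⊤ r := logCounting_nonneg hr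
  have h4 : 0 ≤ logCounting f⁻¹ ⊤ r := logCounting_nonneg hr
  simp only [Pi.add_apply]
  linarith

theorem RatP_rational {Φ : ℂ → ℂ} (hΦm : Meromorphic Φ)
    (hord0 : ∀ u : ℂ, meromorphicOrderAt Φ u ≠ ⊤) {C : ℝ}
    (h : ∀ r, 1 ≤ r → characteristic Φ ⊤ r ≤ C * (1 + Real.log r)) :
    ∃ (T : Finset ℂ) (D : ℂ → ℤ) (c : ℂ),
      ∀ᶠ z in codiscrete ℂ, Φ z = (∏ u ∈ T, (z - u) ^ D u) * c := by
  classical
  obtain ⟨M, hM⟩ : ∃ M : ℝ, M = max |Real.log ‖Φ 0‖| |Real.log ‖meromorphicTrailingCoeffAt Φ 0‖| :=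
    ⟨_, rfl⟩
  have hinv : ∀ r, 1 ≤ r → characteristic Φ⁻¹ ⊤ r ≤ (C + M) + C * Real.log r := by
    intro r hr
    have h1 := characteristic_sub_characteristic_inv_le hΦm (R := r)
    rw [← hM] at h1
    have h2 := (abs_le.1 h1).1
    have h3 := h r hr
    linarith
  have h' : ∀ r, 1 ≤ r → characteristic Φ ⊤ r ≤ C + C * Real.log r := by
    intro r hr
    have := h r hr
    linarith
  -- finitely many zeros and poles
  have hpole : logCounting Φ ⊤ =O[atTop] Real.log := by
    apply isBigO_log (A := C) (B := C) (ρ0 := 1) (fun ρ hρ => logCounting_nonneg hρ)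
    intro ρ hρ
    refine le_trans ?_ (h' ρ hρ)
    unfold characteristic
    simp only [Pi.add_apply]
    have : 0 ≤ proximity Φ ⊤ ρ := proximity_nonneg ρ
    linarith
  have hzero : logCounting Φ 0 =O[atTop] Real.log := by
    apply isBigO_log (A := C + M) (B := C) (ρ0 := 1) (fun ρ hρ => logCounting_nonneg hρ)
    intro ρ hρ
    refine le_trans ?_ (hinv ρ hρ)
    unfold characteristic
    simp only [Pi.add_apply]
    have : 0 ≤ proximity Φ⁻¹ ⊤ ρ := proximity_nonneg ρ
    rw [logCounting_inv]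
    linarith
  rw [logCounting_top] at hpole
  rw [logCounting_zero] at hzero
  have f1 := Function.locallyFinsuppWithin.finite_support_of_logCounting_isBigO_log
    (negPart_nonneg _) hpole
  have f2 := Function.locallyFinsuppWithin.finite_support_of_logCounting_isBigO_log
    (posPart_nonneg _) hzero
  have hfin : (divisor Φ univ).support.Finite := by
    apply (f1.union f2).subset
    intro z hz
    by_contra hcon
    rw [mem_union, not_or, Function.notMem_support, Function.notMem_support] at hcon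
    apply hz
    have h1 := posPart_sub_negPart (divisor Φ univ)
    rw [← h1, Function.locallyFinsuppWithin.coe_sub, Pi.sub_apply, hcon.1, hcon.2, sub_zero]
  have hord : ∀ u : (univ : Set ℂ), meromorphicOrderAt Φ u.1 ≠ ⊤ := fun u => hord0 u.1
  obtain ⟨g, hg, hgne, hge⟩ := MeromorphicOn.extract_zeros_poles (fun z _ => hΦm z) hord hfin
  have hgd : Differentiable ℂ g := fun z => (hg z (mem_univ z)).differentiableAt
  have hgne' : ∀ z, g z ≠ 0 := fun z => hgne ⟨z, mem_univ z⟩
  let D : ℂ → ℤ := fun u => divisor Φ univ u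
  set T : Finset ℂ := hfin.toFinset with hT
  have hprod : ∀ z, (∏ᶠ u, (fun w : ℂ => w - u) ^ divisor Φ univ u) z
      = ∏ u ∈ T, (z - u) ^ D u := by
    intro z
    rw [finprod_eq_prod_of_mulSupport_subset (s := T)]
    · simp [D]
    · rw [Function.FactorizedRational.mulSupport]
      intro u hu
      simp only [hT, Finite.coe_toFinset]
      exact hu
  have hge' : ∀ᶠ z in codiscrete ℂ, Φ z = (∏ u ∈ T, (z - u) ^ D u) * g z := by
    filter_upwards [hge] with z hz
    rw [hz, Pi.smul_apply', hprod, smul_eq_mul]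
  have hΦne : ∀ᶠ z in codiscrete ℂ, Φ z ≠ 0 := by
    refine mem_codiscreteWithin_iff_forall_mem_nhdsNE.2 fun x _ => ?_
    filter_upwards [(meromorphicOrderAt_ne_top_iff_eventually_ne_zero (hΦm x)).1 (hord0 x)] with w hw
    exact Or.inl hw
  -- the mean of `|log ‖g‖|`
  set T0 : ℝ := ∑ u ∈ T, ‖u‖ with hT0
  have hTn : ∀ u ∈ T, ‖u‖ ≤ T0 := fun u hu =>
    Finset.single_le_sum (f := fun u => ‖u‖) (fun i _ => norm_nonneg _) hu
  set K : ℝ := ∑ u ∈ T, |(D u : ℝ)| with hK
  have hKn : 0 ≤ K := Finset.sum_nonneg fun _ _ => abs_nonneg _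
  obtain ⟨c, hc, hgc⟩ := const_of_avg hgd hgne' (A := (2 * C + M) + K * (2 * Real.log 2))
    (B := 2 * C + 2 * K) (ρ0 := max 1 T0) (by
    intro ρ hρ
    have hρ1 : 1 ≤ ρ := (le_max_left _ _).trans hρ
    have hρ0 : ρ ≠ 0 := by linarith
    have i0 := ci_abs (ci_log (mero_of_diff hgd) ρ)
    have i1 := ci_abs (ci_log hΦm ρ)
    have i2 : ∀ u ∈ T, CircleIntegrable (fun z => |Real.log ‖(z - u) ^ D u‖|) 0 ρ := by
      intro u _
      apply ci_abs
      apply ci_log
      intro z
      exact ((mero_of_diff (differentiable_id.sub_const u)) z).zpow (D u)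
    have i3 : CircleIntegrable (fun z => ∑ u ∈ T, |Real.log ‖(z - u) ^ D u‖|) 0 ρ :=
      CircleIntegrable.fun_sum _ i2
    have h1 : Real.circleAverage (fun z => |Real.log ‖g z‖|) 0 ρ
        ≤ Real.circleAverage (fun z => |Real.log ‖Φ z‖|
          + ∑ u ∈ T, |Real.log ‖(z - u) ^ D u‖|) 0 ρ := by
      apply avg_le_cod i0 (i1.add i3) hρ0
      have hcs : ∀ {P : ℂ → Prop}, (∀ᶠ z in codiscrete ℂ, P z) →
          ∀ᶠ z in codiscreteWithin (sphere (0 : ℂ) |ρ|), P z := fun hP =>
        (codiscreteWithin_mono (subset_univ _)) hP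
      filter_upwards [hcs hge', hcs hΦne] with z hz1 a2
      rw [Pi.add_apply]
      have a3 : ∏ u ∈ T, (z - u) ^ D u ≠ 0 := by
        intro h0
        rw [hz1, h0, zero_mul] at a2
        exact a2 rfl
      have a4 : Real.log ‖g z‖ = Real.log ‖Φ z‖ - ∑ u ∈ T, Real.log ‖(z - u) ^ D u‖ := by
        rw [hz1, norm_mul, Real.log_mul (norm_ne_zero_iff.mpr a3)
          (norm_ne_zero_iff.mpr (hgne' z)), norm_prod, Real.log_prod]
        · ring
        · intro u hu
          exact norm_ne_zero_iff.mpr (Finset.prod_ne_zero_iff.mp a3 u hu)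
      rw [a4]
      refine (abs_sub _ _).trans ?_
      gcongr
      exact Finset.abs_sum_le_sum_abs _ _
    have e2 : Real.circleAverage (fun z => |Real.log ‖Φ z‖|
          + ∑ u ∈ T, |Real.log ‖(z - u) ^ D u‖|) 0 ρ
        = Real.circleAverage (fun z => |Real.log ‖Φ z‖|) 0 ρ
          + ∑ u ∈ T, Real.circleAverage (fun z => |Real.log ‖(z - u) ^ D u‖|) 0 ρ := by
      rw [Real.circleAverage_fun_add i1 i3, Real.circleAverage_fun_sum i2]
    have h2 : ∑ u ∈ T, Real.circleAverage (fun z => |Real.log ‖(z - u) ^ D u‖|) 0 ρ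
        ≤ K * (2 * Real.log (2 * ρ)) := by
      rw [hK, Finset.sum_mul]
      apply Finset.sum_le_sum
      intro u hu
      exact avg_abs_lin' hρ1 ((hTn u hu).trans ((le_max_right _ _).trans hρ)) (D u)
    have h3 : Real.log (2 * ρ) = Real.log 2 + Real.log ρ := Real.log_mul (by norm_num) hρ0
    rw [h3] at h2
    rw [e2] at h1
    have h5 := RatP_avg hΦm hρ1
    have h6 := h' ρ hρ1
    have h7 := hinv ρ hρ1
    linarith)
  refine ⟨T, D, c, ?_⟩
  filter_upwards [hge'] with z hz
  rw [hz, hgc]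

open MeasureTheory
open Pool.Agent.N131.SR (Tf Tf_le ratio_le Tf_lower curve_int diff_mero diff_ne)
open Pool.Agent.TH143.EL (mero_id codis_ev)

variable {N : ℕ}

/-- a bound outside a set of finite measure extends by monotonicity -/
theorem char_bound {a : ℂ → ℂ} (ha : Meromorphic a) {E : Set ℝ} (hE : volume E < ⊤) {A B : ℝ}
    (h : ∀ r, 1 ≤ r → r ∉ E → characteristic a ⊤ r ≤ A * Real.log r + B) :
    ∃ C : ℝ, ∀ r, 1 ≤ r → characteristic a ⊤ r ≤ C * (1 + Real.log r) := by
  set m : ℝ := (volume E).toReal + 1 with hm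
  have hm0 : 0 < m := by positivity
  have hl : 0 ≤ Real.log (1 + m) := Real.log_nonneg (by linarith)
  refine ⟨|A| + |A| * Real.log (1 + m) + |B|, fun r hr => ?_⟩
  obtain ⟨r', ⟨h1, h2⟩, h3⟩ : ∃ r' ∈ Icc r (r + m), r' ∉ E := by
    by_contra hcon
    push Not at hcon
    have h1 := measure_mono (μ := volume) (show Icc r (r + m) ⊆ E from hcon)
    rw [Real.volume_Icc, add_sub_cancel_left, ENNReal.ofReal_le_iff_le_toReal hE.ne] at h1
    linarith
  have h4 := ValueDistribution.characteristic_monotoneOn ha (show r ∈ Ioi (0 : ℝ) by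
    simp; linarith) (show r' ∈ Ioi (0 : ℝ) by simp; linarith) h1
  have h5 := h r' (hr.trans h1) h3
  have h6 : Real.log r' ≤ Real.log r + Real.log (1 + m) := by
    rw [← Real.log_mul (by positivity) (by positivity)]
    apply Real.log_le_log (by linarith)
    nlinarith
  have h7 : 0 ≤ Real.log r := Real.log_nonneg hr
  have h8 : A * Real.log r' ≤ |A| * (Real.log r + Real.log (1 + m)) := by
    have h9 : 0 ≤ Real.log r' := Real.log_nonneg (hr.trans h1)
    exact (mul_le_mul_of_nonneg_right (le_abs_self A) h9).trans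
      (mul_le_mul_of_nonneg_left h6 (abs_nonneg A))
  have h9 := le_abs_self B
  have h10 : 0 ≤ |A| * Real.log (1 + m) * Real.log r := by positivity
  have h11 : 0 ≤ |B| * Real.log r := by positivity
  have h12 : 0 ≤ |A| := abs_nonneg A
  nlinarith

/-- meromorphic functions of logarithmic growth are rational -/
theorem ratio_poly {a : ℂ → ℂ} (ha : Meromorphic a) {C : ℝ}
    (h : ∀ r, 1 ≤ r → characteristic a ⊤ r ≤ C * (1 + Real.log r)) :
    ∃ p q : Polynomial ℂ, q ≠ 0 ∧ ∀ᶠ z in codiscrete ℂ, a z * q.eval z = p.eval z := by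
  classical
  by_cases hord : ∀ u : ℂ, meromorphicOrderAt a u ≠ ⊤
  · obtain ⟨T, D, c, hT⟩ := RatP_rational ha hord h
    set q : Polynomial ℂ := ∏ u ∈ T, (Polynomial.X - Polynomial.C u) ^ (D u).natAbs with hq
    have hq0 : q ≠ 0 := Finset.prod_ne_zero_iff.2 fun u _ =>
      pow_ne_zero _ (Polynomial.X_sub_C_ne_zero u)
    refine ⟨Polynomial.C c * ∏ u ∈ T, (Polynomial.X - Polynomial.C u) ^ (D u + (D u).natAbs).toNat,
      q, hq0, ?_⟩
    have hqne : ∀ᶠ z in codiscrete ℂ, q.eval z ≠ 0 := by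
      apply diff_ne q.differentiable
      by_contra hcon
      push Not at hcon
      exact hq0 (Polynomial.funext fun z => by rw [hcon, Polynomial.eval_zero])
    filter_upwards [hT, hqne] with z hz h1
    rw [hz, hq, Polynomial.eval_prod, Polynomial.eval_mul, Polynomial.eval_C, Polynomial.eval_prod]
    simp only [Polynomial.eval_pow, Polynomial.eval_sub, Polynomial.eval_X, Polynomial.eval_C]
    rw [mul_right_comm, ← Finset.prod_mul_distrib, mul_comm]
    congr 1
    apply Finset.prod_congr rfl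
    intro u hu
    have h2 : (z - u) ^ (D u).natAbs ≠ 0 := by
      rw [hq, Polynomial.eval_prod, Finset.prod_ne_zero_iff] at h1
      have := h1 u hu
      simpa using this
    have h3 : 0 ≤ D u + ((D u).natAbs : ℤ) := by omega
    by_cases h0 : D u = 0
    · rw [h0]
      simp
    · have h4 : z - u ≠ 0 := by
        intro h5
        apply h2
        rw [h5]
        exact zero_pow (Int.natAbs_ne_zero.2 h0)
      rw [← zpow_natCast (z - u) (D u).natAbs, ← zpow_add₀ h4,
        ← zpow_natCast (z - u) (D u + ((D u).natAbs : ℤ)).toNat, Int.toNat_of_nonneg h3]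
  · push Not at hord
    obtain ⟨u, hu⟩ := hord
    rw [meromorphicOrderAt_eq_top_iff] at hu
    refine ⟨0, 1, one_ne_zero, ?_⟩
    filter_upwards [mero_id ha (x := u) hu.frequently] with z hz
    rw [hz, zero_mul, Polynomial.eval_zero]

/-- identities of entire functions -/
theorem ent_eq {a b : ℂ → ℂ} (ha : Continuous a) (hb : Continuous b)
    (h : ∀ᶠ z in codiscrete ℂ, a z = b z) (z : ℂ) : a z = b z := by
  have h1 : ∃ᶠ w in 𝓝[≠] z, a w = b w := (codis_ev h z).frequently
  have h2 : Tendsto (fun w => a w - b w) (𝓝[≠] z) (𝓝 (a z - b z)) :=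
    ((ha.sub hb).tendsto z).mono_left nhdsWithin_le_nhds
  have h3 : Tendsto (fun w => a w - b w) (𝓝[≠] z) (𝓝 0) := by
    apply tendsto_const_nhds.congr'
    filter_upwards [codis_ev h z] with w hw
    rw [hw, sub_self]
  exact sub_eq_zero.1 (tendsto_nhds_unique h2 h3)

/-- **Entire curves of logarithmic growth are rational.** -/
theorem exists_rat {f : Fin (N + 1) → ℂ → ℂ} (hf : ∀ j, Differentiable ℂ (f j))
    (h0 : ∀ z, ∃ j, f j z ≠ 0) {E : Set ℝ} (hE : volume E < ⊤) {A B : ℝ}
    (h : ∀ r, 1 ≤ r → r ∉ E → Tf f r ≤ A * Real.log r + B) :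
    ∃ p : Fin (N + 1) → Polynomial ℂ, (∀ z, ∃ j, (p j).eval z ≠ 0) ∧
      (∀ z, ∃ g : ℂ, g ≠ 0 ∧ ∀ j, f j z = g * (p j).eval z) ∧
      ∀ j, ((p j).natDegree : ℝ) ≤ (N + 1) * A := by
  classical
  obtain ⟨l, hl0⟩ := h0 0
  have hl : ∃ z, f l z ≠ 0 := ⟨0, hl0⟩
  have hlne : ∀ᶠ z in codiscrete ℂ, f l z ≠ 0 := diff_ne (hf l) hl
  choose C hC using fun i => ratio_le hf h0 i l hl
  have h1 : ∀ i, ∃ p q : Polynomial ℂ, q ≠ 0 ∧
      ∀ᶠ z in codiscrete ℂ, (f i z / f l z) * q.eval z = p.eval z := by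
    intro i
    have hm : Meromorphic fun z => f i z / f l z := (diff_mero (hf i)).div (diff_mero (hf l))
    obtain ⟨K, hK⟩ := char_bound hm hE (A := A) (B := B + C i) fun r hr hrE =>
      (hC i r hr).trans (by linarith [h r hr hrE])
    exact ratio_poly hm hK
  choose p q hq hpq using h1
  have hqne : ∀ i, ∀ᶠ z in codiscrete ℂ, (q i).eval z ≠ 0 := by
    intro i
    apply diff_ne (q i).differentiable
    by_contra hcon
    push Not at hcon
    exact hq i (Polynomial.funext fun z => by rw [hcon, Polynomial.eval_zero])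
  -- a vector of polynomials
  have hex : ∃ n : ℕ, ∃ P : Fin (N + 1) → Polynomial ℂ, (∃ j, P j ≠ 0) ∧
      (∀ i j z, f i z * (P j).eval z = f j z * (P i).eval z) ∧ ∑ j, (P j).natDegree = n := by
    refine ⟨_, fun i => p i * ∏ j ∈ Finset.univ.erase i, q j, ⟨l, ?_⟩, fun i j z => ?_, rfl⟩
    · apply mul_ne_zero
      · intro h2
        have h3 := (hpq l).and (hlne.and (hqne l))
        obtain ⟨z, h4, h5, h6⟩ := (codis_ev h3 0).exists
        rw [h2, Polynomial.eval_zero, div_self h5, one_mul] at h4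
        exact h6 h4
      · exact Finset.prod_ne_zero_iff.2 fun j _ => hq j
    · refine ent_eq (a := fun z => f i z * (p j * ∏ k ∈ Finset.univ.erase j, q k).eval z)
        (b := fun z => f j z * (p i * ∏ k ∈ Finset.univ.erase i, q k).eval z)
        ((hf i).continuous.mul (Polynomial.continuous _))
        ((hf j).continuous.mul (Polynomial.continuous _)) ?_ z
      filter_upwards [hpq i, hpq j, hlne] with w h2 h3 h4
      have h5 : ∀ k, (q k).eval w * (∏ m ∈ Finset.univ.erase k, q m).eval w =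
          (∏ m, q m).eval w := by
        intro k
        rw [← Polynomial.eval_mul, Finset.mul_prod_erase _ _ (Finset.mem_univ k)]
      rw [Polynomial.eval_mul, Polynomial.eval_mul, ← h2, ← h3, mul_assoc (f j w / f l w),
        mul_assoc (f i w / f l w), h5, h5]
      ring
  obtain ⟨P, ⟨j0, hj0⟩, hrel, hdeg⟩ := Nat.find_spec hex
  have hnc : ∀ z, ∃ j, (P j).eval z ≠ 0 := by
    intro z0
    by_contra hcon
    push Not at hcon
    have h2 : ∀ j, ∃ R : Polynomial ℂ, P j = (Polynomial.X - Polynomial.C z0) * R := fun j =>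
      Polynomial.dvd_iff_isRoot.2 (hcon j)
    choose R hR using h2
    have h3 : ∀ j, (R j).natDegree ≤ (P j).natDegree := by
      intro j
      by_cases h4 : R j = 0
      · rw [h4]
        simp
      · rw [hR j, Polynomial.natDegree_mul (Polynomial.X_sub_C_ne_zero z0) h4]
        omega
    have hRj0 : R j0 ≠ 0 := by
      intro h4
      apply hj0
      rw [hR, h4, mul_zero]
    have h4 : (R j0).natDegree < (P j0).natDegree := by
      rw [hR j0, Polynomial.natDegree_mul (Polynomial.X_sub_C_ne_zero z0) hRj0,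
        Polynomial.natDegree_X_sub_C]
      omega
    have h5 : ∑ j, (R j).natDegree < ∑ j, (P j).natDegree :=
      Finset.sum_lt_sum (fun j _ => h3 j) ⟨j0, Finset.mem_univ _, h4⟩
    rw [hdeg] at h5
    refine Nat.find_min hex h5 ⟨R, ⟨j0, hRj0⟩, fun i j z => ?_, rfl⟩
    refine ent_eq (a := fun z => f i z * (R j).eval z) (b := fun z => f j z * (R i).eval z)
        ((hf i).continuous.mul (Polynomial.continuous _))
        ((hf j).continuous.mul (Polynomial.continuous _)) ?_ z
    have h6 : ∀ᶠ w : ℂ in codiscrete ℂ, w - z0 ≠ 0 :=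
      diff_ne (differentiable_id.sub_const z0) ⟨z0 + 1, by simp⟩
    filter_upwards [h6] with w hw
    have h7 := hrel i j w
    rw [hR j, hR i, Polynomial.eval_mul, Polynomial.eval_mul, Polynomial.eval_sub,
      Polynomial.eval_X, Polynomial.eval_C] at h7
    apply mul_left_cancel₀ hw
    linear_combination h7
  have hg : ∀ z, ∃ g : ℂ, g ≠ 0 ∧ ∀ j, f j z = g * (P j).eval z := by
    intro z
    obtain ⟨j, hj⟩ := hnc z
    have h2 : ∀ i, f i z = f j z / (P j).eval z * (P i).eval z := by
      intro i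
      have h3 := hrel i j z
      field_simp
      exact h3
    refine ⟨f j z / (P j).eval z, ?_, h2⟩
    intro h3
    obtain ⟨i, hi⟩ := h0 z
    apply hi
    rw [h2 i, h3, zero_mul]
  refine ⟨P, hnc, hg, fun j => ?_⟩
  -- the degree
  have hPd : ∀ j, Differentiable ℂ fun z => (P j).eval z := fun j => (P j).differentiable
  obtain ⟨l', hl'⟩ := hnc 0
  obtain ⟨K1, hK1⟩ := Tf_le (f := fun j z => (P j).eval z) hPd hnc l' ⟨0, hl'⟩
  have hl'' : ∃ z, f l' z ≠ 0 := by
    obtain ⟨g, hg0, hgf⟩ := hg 0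
    exact ⟨0, by rw [hgf]; exact mul_ne_zero hg0 hl'⟩
  choose K2 hK2 using fun i => ratio_le hf h0 i l' hl''
  have hsame : ∀ i, (fun z => (P i).eval z / (P l').eval z) = fun z => f i z / f l' z := by
    intro i
    funext z
    obtain ⟨g, hg0, hgf⟩ := hg z
    rw [hgf i, hgf l', mul_div_mul_left _ _ hg0]
  obtain ⟨R, c, hR, hc⟩ := N131.SU.Tf_poly hnc j
  by_contra hcon
  push Not at hcon
  set δ : ℝ := (P j).natDegree - (N + 1) * A with hδ
  have hδ0 : 0 < δ := by
    rw [hδ]
    linarith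
  set K : ℝ := c + K1 + (N + 1) * B + ∑ i, K2 i with hK
  have hsub : Set.Ici (max R (Real.exp (K / δ + 1))) ⊆ E := by
    intro r hr
    by_contra hrE
    have h3 : R ≤ r := (le_max_left _ _).trans hr
    have h4 : Real.exp (K / δ + 1) ≤ r := (le_max_right _ _).trans hr
    have hr1 : 1 ≤ r := hR.trans h3
    have h5 := hc r h3
    have h6 := hK1 r hr1
    have h7 := h r hr1 hrE
    have h8 : ∑ i, characteristic (fun z => (P i).eval z / (P l').eval z) ⊤ r ≤
        ∑ i, (A * Real.log r + B + K2 i) := by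
      apply Finset.sum_le_sum
      intro i _
      rw [hsame i]
      linarith [hK2 i r hr1]
    rw [Finset.sum_add_distrib, Finset.sum_const, Finset.card_univ, Fintype.card_fin,
      nsmul_eq_mul] at h8
    push_cast at h8
    have h10 : δ * Real.log r ≤ K := by
      rw [hδ, hK]
      nlinarith
    have h11 : K / δ + 1 ≤ Real.log r := by
      rw [← Real.log_exp (K / δ + 1)]
      exact Real.log_le_log (Real.exp_pos _) h4
    have h12 : Real.log r ≤ K / δ := by
      rw [le_div_iff₀ hδ0]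
      linarith
    linarith
  have h3 := measure_mono (μ := volume) hsub
  rw [Real.volume_Ici, top_le_iff] at h3
  exact hE.ne h3

end Pool.Agent.U178.WF.Rat
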